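import Pool.Agent.Helper78.DT.Goals

/-!
# Packet DT-GOO
-/

namespace Pool.Agent.Helper32.DT

open Pool.Agent.Helper78.DT

open scoped Classical

theorem goo (hG : GthStmt) (hD : DepStmt) (hC : CntStmt) : GooStmt := by
  intro R P d q k t s κ δ hR hq hqP hd hδ h16 h2
  obtain ⟨hfin, hcard⟩ := hC P t s
  let F : Finset (DL (Fin P)) := hfin.toFinset
  have hF : ∀ g, g ∈ F ↔ Wid t g ∧ g.length ≤ s := fun g => by
    rw [Set.Finite.mem_toFinset]; rfl
  have hFc : F.card ≤ (2 * (2 * P + 1) ^ t + 1) ^ s := by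
    rw [← Set.ncard_eq_toFinset_card _ hfin]; exact hcard
  let I : Finset (DL (Fin P) × Bool) := F ×ˢ Finset.univ
  have hI : I.card = F.card * 2 := by
    rw [Finset.card_product, Finset.card_univ, Fintype.card_bool]
  let φ : DL (Fin P) × Bool → (Fin P → Bool) → Prop := fun i =>
    if i.2 = true then hi t κ i.1 else lo t κ i.1
  have hmain := hG R P d q k (t * s) δ hR hq hqP hd hδ h16 h2 (DL (Fin P) × Bool) I φ
    (fun i => vars i.1) (by
      intro i hi'
      have hg : i.1 ∈ F := (Finset.mem_product.mp hi').1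
      rw [hF] at hg
      obtain ⟨d1, d2, d3⟩ := hD (Fin P) i.1 t κ
      refine ⟨?_, ?_⟩
      · change Dep (vars i.1) (if i.2 = true then hi t κ i.1 else lo t κ i.1)
        split_ifs
        · exact d2
        · exact d1
      · exact (d3 hg.1).trans (Nat.mul_le_mul_left t hg.2))
  have h1 : pr (fun θ : Fin d → Fin R => ¬ Good R P d q t s κ δ (ext θ)) ≤
      pr (fun θ : Fin d → Fin R => ∃ i ∈ I,
      δ < |pr (fun a : Fin q => φ i (st R P d (ext θ) a)) - pr (φ i)|) := by
    apply pr_mono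
    intro θ hθ
    unfold Good at hθ
    push Not at hθ
    obtain ⟨g, hg1, hg2, hg3⟩ := hθ
    by_cases h : |pr (fun a : Fin q => lo t κ g (st R P d (ext θ) a)) - pr (lo t κ g)| ≤ δ
    · refine ⟨(g, true), Finset.mem_product.mpr ⟨(hF g).mpr ⟨hg1, hg2⟩, Finset.mem_univ _⟩, ?_⟩
      exact hg3 h
    · refine ⟨(g, false), Finset.mem_product.mpr ⟨(hF g).mpr ⟨hg1, hg2⟩, Finset.mem_univ _⟩, ?_⟩
      exact not_le.mp h
  refine h1.trans (hmain.trans ?_)
  refine mul_le_mul_of_nonneg_right ?_ (by positivity)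
  rw [hI]
  push_cast
  have h3 : (F.card : ℝ) ≤ (2 * (2 * (P : ℝ) + 1) ^ t + 1) ^ s := by
    calc (F.card : ℝ) ≤ (((2 * (2 * P + 1) ^ t + 1) ^ s : ℕ) : ℝ) := by exact_mod_cast hFc
      _ = _ := by push_cast; ring
  linarith

end Pool.Agent.Helper32.DT
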