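import Pool.Agent.Helper78.DT.Goals

/-!
# Packet DT-HYB: the hybrid argument
-/

namespace Pool.Agent.Helper32.DT

open Pool.Agent.Helper78.DT

open scoped Classical

section

variable {n K : ℕ}

/-- `y` on the part `J`, `c` outside. -/
noncomputable def mix (h : Fin n → Fin K) (J : Fin K) (y c : Fin n → Bool) : Fin n → Bool :=
  fun v => if h v = J then y v else c v

/-- The restricted decision list. -/
noncomputable def res (h : Fin n → Fin K) (J : Fin K) (c : Fin n → Bool) (f : DL (Fin n)) :
    DL (Fin n) :=
  (f.filter fun e => decide (∀ p ∈ e.1, h p.1 ≠ J → c p.1 = p.2)).map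
    fun e => (e.1.filter (fun p => h p.1 = J), e.2)

theorem sat_mix (h : Fin n → Fin K) (J : Fin K) (y c : Fin n → Bool) (T : Tm (Fin n)) :
    Sat T (mix h J y c) ↔
      (∀ p ∈ T, h p.1 ≠ J → c p.1 = p.2) ∧ Sat (T.filter (fun p => h p.1 = J)) y := by
  unfold Sat mix
  constructor
  · intro H
    refine ⟨?_, ?_⟩
    · intro p hp hJ
      have := H p hp
      rwa [if_neg hJ] at this
    · intro p hp
      rw [Finset.mem_filter] at hp
      have := H p hp.1
      rwa [if_pos hp.2] at this
  · rintro ⟨H1, H2⟩ p hp
    by_cases hJ : h p.1 = J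
    · rw [if_pos hJ]
      exact H2 p (Finset.mem_filter.mpr ⟨hp, hJ⟩)
    · rw [if_neg hJ]
      exact H1 p hp hJ

theorem ev_res (h : Fin n → Fin K) (J : Fin K) (c y : Fin n → Bool) (f : DL (Fin n)) :
    ev (res h J c f) y = ev f (mix h J y c) := by
  induction f with
  | nil => rfl
  | cons e f ih =>
    by_cases H : ∀ p ∈ e.1, h p.1 ≠ J → c p.1 = p.2
    · have h1 : res h J c (e :: f) = (e.1.filter (fun p => h p.1 = J), e.2) :: res h J c f := by
        unfold res
        rw [List.filter_cons_of_pos (by simpa using H), List.map_cons]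
      rw [h1, ev, ev, ih]
      have h2 : Sat (e.1.filter (fun p => h p.1 = J), e.2).1 y ↔ Sat e.1 (mix h J y c) := by
        rw [sat_mix]
        exact ⟨fun h3 => ⟨H, h3⟩, fun h3 => h3.2⟩
      by_cases h3 : Sat e.1 (mix h J y c)
      · rw [if_pos h3, if_pos (h2.mpr h3)]
      · rw [if_neg h3, if_neg (fun h4 => h3 (h2.mp h4))]
    · have h1 : res h J c (e :: f) = res h J c f := by
        unfold res
        rw [List.filter_cons_of_neg (by simpa using H)]
      have h3 : ¬ Sat e.1 (mix h J y c) := by
        rw [sat_mix]
        exact fun h4 => H h4.1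
      rw [h1, ih, ev, if_neg h3]

theorem wid_res (t : ℕ) (h : Fin n → Fin K) (J : Fin K) (c : Fin n → Bool) (f : DL (Fin n))
    (hf : ∀ e ∈ f, ∀ j, (e.1.filter fun p => h p.1 = j).card ≤ t) : Wid t (res h J c f) := by
  intro e he
  unfold res at he
  rw [List.mem_map] at he
  obtain ⟨e', he', rfl⟩ := he
  exact hf e' (List.mem_of_mem_filter he') J

end

/-- Resampling by an involution. -/
theorem av_invol {Ω Ω' : Type} [Fintype Ω] [Fintype Ω'] [Nonempty Ω'] (e : Ω × Ω' → Ω × Ω')
    (he : Function.Involutive e) (F : Ω → ℝ) :
    (av fun a => av fun b => F (e (a, b)).1) = av F := by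
  have h1 : (av fun a => av fun b => F (e (a, b)).1) = av fun p : Ω × Ω' => F (e p).1 := by
    rw [av_prod]
  rw [h1]
  have h2 := av_equiv (he.toPerm e) (fun p : Ω × Ω' => F p.1)
  have h3 : (av fun p : Ω × Ω' => F (e p).1) = av fun p : Ω × Ω' => F p.1 := h2
  rw [h3, av_prod]
  exact av_congr fun a => av_const (F a)

theorem pr_invol {Ω Ω' : Type} [Fintype Ω] [Fintype Ω'] [Nonempty Ω'] (e : Ω × Ω' → Ω × Ω')
    (he : Function.Involutive e) (E : Ω → Prop) :
    (av fun a => pr fun b => E (e (a, b)).1) = pr E :=
  av_invol e he fun a => if E a then 1 else 0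

theorem pr_cst {Ω : Type} [Fintype Ω] [Nonempty Ω] (p : Prop) :
    pr (fun _ : Ω => p) = if p then 1 else 0 := by
  unfold pr
  exact av_const (Ω := Ω) (if p then (1 : ℝ) else 0)

theorem hyb : HybStmt := by
  intro n K t S _ _ G δ hδ hG h f hf
  let X : ℕ → (Fin K → S) → (Fin n → Bool) → (Fin n → Bool) := fun j s u v =>
    if (h v : ℕ) < j then G (s (h v)) v else u v
  let a : ℕ → ℝ := fun j => av fun s : Fin K → S => pr fun u : Fin n → Bool => ev f (X j s u) = true
  have hstep : ∀ j, j < K → |a (j + 1) - a j| ≤ δ := by
    intro j hj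
    let J : Fin K := ⟨j, hj⟩
    let Z : (Fin K → S) → (Fin n → Bool) → (Fin n → Bool) := fun s u v =>
      if (h v : ℕ) < j then G (s (h v)) v else u v
    have e1 : a (j + 1) = av fun s : Fin K → S => av fun u : Fin n → Bool =>
        pr fun σ : S => ev f (mix h J (G σ) (Z s u)) = true := by
      have r1 := av_invol (Ω := Fin K → S) (Ω' := S)
        (fun p => (Function.update p.1 J p.2, p.1 J)) (by
          rintro ⟨s, σ⟩
          simp) (fun s => pr fun u : Fin n → Bool => ev f (X (j + 1) s u) = true)
      change (av fun s : Fin K → S => pr fun u : Fin n → Bool => ev f (X (j + 1) s u) = true) = _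
      rw [← r1]
      refine av_congr fun s => ?_
      rw [show (av fun u : Fin n → Bool => pr fun σ : S =>
          ev f (mix h J (G σ) (Z s u)) = true) =
          av fun σ : S => pr fun u : Fin n → Bool => ev f (mix h J (G σ) (Z s u)) = true from
          av_comm _]
      refine av_congr fun σ => pr_congr fun u => ?_
      have : X (j + 1) (Function.update s J σ) u = mix h J (G σ) (Z s u) := by
        funext v
        simp only [X, mix, Z]
        by_cases h1 : h v = J
        · have h2 : (h v : ℕ) < j + 1 := by rw [h1]; exact Nat.lt_succ_self j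
          rw [if_pos h2, if_pos h1, h1, Function.update_self]
        · rw [if_neg h1, Function.update_of_ne h1]
          have h3 : (h v : ℕ) ≠ j := fun h4 => h1 (Fin.ext h4)
          by_cases h2 : (h v : ℕ) < j
          · rw [if_pos h2, if_pos (by omega)]
          · rw [if_neg h2, if_neg (by omega)]
      rw [this]
    have e2 : a j = av fun s : Fin K → S => av fun u : Fin n → Bool =>
        pr fun y : Fin n → Bool => ev f (mix h J y (Z s u)) = true := by
      change (av fun s : Fin K → S => pr fun u : Fin n → Bool => ev f (X j s u) = true) = _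
      refine av_congr fun s => ?_
      have r1 := pr_invol (Ω := Fin n → Bool) (Ω' := Fin n → Bool)
        (fun p => (mix h J p.2 p.1, mix h J p.1 p.2)) (by
          rintro ⟨u, y⟩
          refine Prod.ext ?_ ?_
          · funext v
            simp only [mix]
            split_ifs <;> rfl
          · funext v
            simp only [mix]
            split_ifs <;> rfl) (fun u => ev f (X j s u) = true)
      refine Eq.trans r1.symm ?_
      refine av_congr fun u => pr_congr fun y => ?_
      have : X j s (mix h J y u) = mix h J y (Z s u) := by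
        funext v
        simp only [X, mix, Z]
        by_cases h1 : h v = J
        · have h2 : ¬ ((h v : ℕ) < j) := by rw [h1]; exact lt_irrefl j
          rw [if_neg h2]
          simp [h1]
        · simp [h1]
      change ev f (X j s (mix h J y u)) = true ↔ _
      rw [this]
    rw [e1, e2, ← av_sub]
    refine (abs_av_le _).trans (av_le_of_le hδ fun s => ?_)
    rw [← av_sub]
    refine (abs_av_le _).trans (av_le_of_le hδ fun u => ?_)
    have h1 := hG (res h J (Z s u) f) (wid_res t h J (Z s u) f hf)
    simp only [ev_res] at h1
    exact h1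
  have h0 : a 0 = pr fun x : Fin n → Bool => ev f x = true := by
    have : ∀ s : Fin K → S, (pr fun u : Fin n → Bool => ev f (X 0 s u) = true) =
        pr fun x : Fin n → Bool => ev f x = true := by
      intro s
      refine pr_congr fun u => ?_
      have : X 0 s u = u := by
        funext v
        simp [X]
      rw [this]
    change (av fun s : Fin K → S => pr fun u : Fin n → Bool => ev f (X 0 s u) = true) = _
    rw [av_congr this, av_const]
  have hK : a K = pr fun s : Fin K → S => ev f (fun v => G (s (h v)) v) = true := by
    change (av fun s : Fin K → S => pr fun u : Fin n → Bool => ev f (X K s u) = true) = _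
    refine av_congr fun s => ?_
    have : ∀ u : Fin n → Bool, X K s u = fun v => G (s (h v)) v := by
      intro u
      funext v
      simp [X]
    have h5 : (pr fun u : Fin n → Bool => ev f (X K s u) = true) =
        pr fun _ : Fin n → Bool => ev f (fun v => G (s (h v)) v) = true := by
      refine pr_congr fun u => ?_
      rw [this]
    rw [h5, pr_cst]
  have hind : ∀ j, j ≤ K → |a j - a 0| ≤ j * δ := by
    intro j
    induction j with
    | zero => intro _; simp
    | succ j ih =>
      intro hj
      have h1 := ih (by omega)
      have h2 := hstep j (by omega)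
      have h3 : a (j + 1) - a 0 = (a (j + 1) - a j) + (a j - a 0) := by ring
      rw [h3]
      refine (abs_add_le _ _).trans ?_
      push_cast
      linarith
  have := hind K le_rfl
  rw [hK, h0] at this
  exact this

end Pool.Agent.Helper32.DT
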